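import Pool.Agent.Run7.h156.VC.Mix

/-!
# The bound for read-once networks that approximate vertex covers
-/

set_option autoImplicit false

open Finset

namespace Run7.h156.VC

open Pool.Agent.TH700.PA (Net mixp rand_density)

variable {n t : ℕ}

theorem no_top {g : ℕ} (hgn : g < n) : No g (⊤ : SimpleGraph (Fin n)) (fun _ => 1) := by
  classical
  intro C hC
  simp only [sum_const, smul_eq_mul, mul_one, card_univ, Fintype.card_fin]
  have h1 : (Cᶜ).card ≤ 1 := by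
    rw [card_le_one]
    intro u hu v hv
    by_contra hne
    rw [mem_compl] at hu hv
    rcases hC (show (⊤ : SimpleGraph (Fin n)).Adj u v from hne) with h | h
    · exact hu (mem_coe.1 h)
    · exact hv (mem_coe.1 h)
  rw [card_compl, Fintype.card_fin] at h1
  have h2 : n ≤ C.card + 1 := by omega
  have h3 : g * n ≤ g * (C.card + 1) := Nat.mul_le_mul_left _ h2
  rw [mul_add, mul_one] at h3
  omega

theorem card_sets : Fintype.card (Finset (Fin n)) = 2 ^ n := by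
  rw [Fintype.card_finset, Fintype.card_fin]

theorem half_sets : Fintype.card (Finset (Fin n)) ≤
    2 ^ 1 * (univ.filter (fun A : Finset (Fin n) => n ≤ 2 * A.card)).card := by
  classical
  have h1 := card_filter_add_card_filter_not (s := (univ : Finset (Finset (Fin n))))
    (fun A : Finset (Fin n) => n ≤ 2 * A.card)
  have h2 : (univ.filter (fun A : Finset (Fin n) => ¬ n ≤ 2 * A.card)).card ≤
      (univ.filter (fun A : Finset (Fin n) => n ≤ 2 * A.card)).card := by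
    refine card_le_card_of_injOn (fun A => Aᶜ) (fun A hA => ?_) (fun A _ B _ h => compl_injective h)
    have h3 := (mem_filter.1 (mem_coe.1 hA)).2
    refine mem_coe.2 (mem_filter.2 ⟨mem_univ _, ?_⟩)
    rw [card_compl, Fintype.card_fin]
    omega
  rw [card_univ] at h1
  omega

theorem lower {g : ℕ} (hg : 1 ≤ g) (hn : 15000 * g ^ 3 * (Nat.log 2 g + 1) ^ 2 ≤ n)
    (μ : ℕ) (R : Type) [Fintype R] [Nonempty R] (K W : R → Type) [∀ ρ, Field (K ρ)]
    [∀ ρ, Fintype (W ρ)] (T : ∀ ρ, WNet (K ρ) n (W ρ)) (a : ∀ ρ, W ρ → K ρ)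
    (h1 : ∀ ρ e, (T ρ).reads e ≤ 1)
    (hno : ∀ ρ G, No g G (fun _ => 1) → (T ρ).value (a ρ) (bits G) (fun _ => 1) = 0)
    (hyes : ∀ G, Yes G (fun _ => 1) →
      Nat.card R ≤ 2 ^ μ * Nat.card {ρ // (T ρ).value (a ρ) (bits G) (fun _ => 1) ≠ 0}) :
    ∃ ρ, 2 ^ n ≤ (2 ^ μ * Fintype.card (W ρ)) ^ (2400 * g ^ 3 * (Nat.log 2 g + 1)) := by
  classical
  obtain ⟨l, hl⟩ : ∃ l, l = Nat.log 2 g + 1 := ⟨_, rfl⟩
  rw [← hl] at hn ⊢
  have hl1 : 1 ≤ l := by omega
  obtain ⟨L, hLd⟩ : ∃ L, L = l + 2 := ⟨_, rfl⟩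
  have hL3 : L ≤ 3 * l := by omega
  have hgl : g < 2 ^ l := by
    rw [hl]
    exact Nat.lt_pow_succ_log_self (by norm_num) g
  have hL : 4 * g ≤ 2 ^ L := by
    rw [hLd, pow_add]
    omega
  have hg3 : 1 ≤ g ^ 3 := Nat.one_le_pow _ _ hg
  have hg2 : 1 ≤ g ^ 2 := Nat.one_le_pow _ _ hg
  have hgg : g ≤ g ^ 3 := by
    calc g = g ^ 1 := (pow_one g).symm
      _ ≤ g ^ 3 := Nat.pow_le_pow_right hg (by norm_num)
  have hll : 1 ≤ l ^ 2 := Nat.one_le_pow _ _ hl1
  have hn0 : 1560 * g ^ 3 * L ^ 2 ≤ n := by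
    calc 1560 * g ^ 3 * L ^ 2 ≤ 1560 * g ^ 3 * (3 * l) ^ 2 :=
          Nat.mul_le_mul_left _ (Nat.pow_le_pow_left hL3 2)
      _ = 14040 * g ^ 3 * l ^ 2 := by ring
      _ ≤ 15000 * g ^ 3 * l ^ 2 := Nat.mul_le_mul_right _ (Nat.mul_le_mul_right _ (by norm_num))
      _ ≤ n := hn
  have hgn : g < n := by
    have h2 : 15000 * g ^ 3 * 1 ≤ 15000 * g ^ 3 * l ^ 2 := Nat.mul_le_mul_left _ hll
    omega
  -- the size of the independent sets
  have hex : ∃ m, n ≤ g * m := ⟨n, Nat.le_mul_of_pos_left _ hg⟩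
  obtain ⟨m, hm⟩ : ∃ m, m = Nat.find hex := ⟨_, rfl⟩
  have hm1 : n ≤ g * m := by
    rw [hm]
    exact Nat.find_spec hex
  have hm2 : ∀ c, n ≤ g * c → m ≤ c := fun c hc => by
    rw [hm]
    exact Nat.find_le hc
  have hmL : 1560 * g ^ 2 * L ^ 2 ≤ m := by
    refine Nat.le_of_mul_le_mul_left (c := g) ?_ hg
    refine le_trans (le_of_eq ?_) (hn0.trans hm1)
    ring
  have hL1 : 3 ≤ L := by omega
  have hLL : L ≤ L ^ 2 := by
    calc L = L * 1 := (mul_one L).symm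
      _ ≤ L * L := Nat.mul_le_mul_left _ (by omega)
      _ = _ := (sq L).symm
  have hgL : L ^ 2 ≤ g ^ 2 * L ^ 2 := Nat.le_mul_of_pos_left _ hg2
  have hmL' : 1560 * (g ^ 2 * L ^ 2) ≤ m := by
    rw [← mul_assoc]
    exact hmL
  obtain ⟨y, hy⟩ : ∃ y, y = (m - 1) / (4 * L) := ⟨_, rfl⟩
  have h4L : 0 < 4 * L := by omega
  have hy1 : 1 ≤ y := by
    rw [hy]
    exact Nat.div_pos (by omega) h4L
  have hyL : 4 * y * L ≤ m - 1 := by
    have := Nat.mul_div_le (m - 1) (4 * L)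
    rw [← hy] at this
    refine le_trans (le_of_eq ?_) this
    ring
  have hmy : m ≤ 8 * L * y := by
    have h2 := Nat.lt_mul_div_succ (m - 1) h4L
    rw [← hy] at h2
    have h3 : 4 * L * (y + 1) ≤ 8 * L * y := by
      calc 4 * L * (y + 1) ≤ 4 * L * (2 * y) := Nat.mul_le_mul_left _ (by omega)
        _ = _ := by ring
    omega
  obtain ⟨t, ht⟩ : ∃ t, t = 128 * g ^ 2 * L ^ 2 + 1 := ⟨_, rfl⟩
  have hE : 2 * Fintype.card (Sym2 (Fin n)) + y ^ 2 ≤ y ^ 2 * t := by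
    have e1 : 2 * Fintype.card (Sym2 (Fin n)) ≤ (n + 1) * n := by
      rw [Sym2.card, Fintype.card_fin, Nat.choose_two_right, Nat.add_sub_cancel]
      exact Nat.mul_div_le _ _
    have e2 : n ≤ 8 * g * L * y := by
      refine hm1.trans ((Nat.mul_le_mul_left _ hmy).trans (le_of_eq ?_))
      ring
    have e3 : n + 1 ≤ 16 * g * L * y := by
      have : 16 * g * L * y = 2 * (8 * g * L * y) := by ring
      omega
    rw [ht]
    calc 2 * Fintype.card (Sym2 (Fin n)) + y ^ 2 ≤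
          (16 * g * L * y) * (8 * g * L * y) + y ^ 2 :=
          Nat.add_le_add_right (e1.trans (Nat.mul_le_mul e3 e2)) _
      _ = _ := by ring
  -- the networks
  have hconv : ∀ ρ, ∃ T' : Net (K ρ) (Sym2 (Fin n)) Bool (W ρ), (∀ e, T'.reads e ≤ 1) ∧
      ∀ x, T'.value (a ρ) x = (T ρ).value (a ρ) x (fun _ => 1) := by
    intro ρ
    rcases conv (fun _ => 1) (T ρ) with ⟨-, v, hv⟩ | ⟨T', q1, q2⟩
    · have h2 := hno ρ ⊤ (no_top hgn)
      refine ⟨.leaf s(⟨0, by omega⟩, ⟨0, by omega⟩) (fun _ _ => 0), fun e => ?_, fun x => ?_⟩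
      · unfold Net.reads
        split_ifs <;> omega
      · have h3 : (T ρ).value (a ρ) x (fun _ => 1) = 0 := by
          rw [← h2]
          unfold WNet.value
          rw [hv, hv]
        rw [h3]
        unfold Net.value Net.eval
        simp
    · refine ⟨T', fun e => by rw [q1]; exact h1 ρ e, fun x => ?_⟩
      unfold Net.value WNet.value
      rw [q2]
  choose T' hT1 hT2 using hconv
  have hbits : ∀ A : Finset (Fin n), bits (toG (pl A)) = pl A := fun A => bits_toG (pl_diag A)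
  obtain ⟨ρ, hρ, hw1⟩ := rand_density μ R K W T' a hT1 (θ := y ^ 2) (t := t)
    (Nat.one_le_pow _ _ hy1) (by omega) hE (U := Finset (Fin n)) pl
    (univ.filter (fun A : Finset (Fin n) => n ≤ 2 * A.card)) (η := 1) half_sets
    (fun A hA => by
      have h2 := hyes (toG (pl A)) ⟨Aᶜ, pl_cover A, by
        simp only [sum_const, smul_eq_mul, mul_one, card_univ, Fintype.card_fin]
        rw [card_compl, Fintype.card_fin]
        have := (mem_filter.1 hA).2
        omega⟩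
      rw [hbits] at h2
      simp only [hT2]
      exact h2) (N := 2 ^ (m * L)) (fun ρ p hp => by
        obtain ⟨B, hB1, hB2⟩ := few_bad (g := g) (L := L) (y := y) (m := m) hL hy1 (by omega) hyL
          hm1 hm2 p hp
        refine ⟨B, fun b hb => hB1 b fun hN => hb ?_, ?_⟩
        · have h3 := hno ρ _ hN
          rw [bits_toG (fun e he => ?_)] at h3
          · rw [hT2]
            exact h3
          · unfold mixp
            exact pl_diag _ e he
        · rw [card_sets]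
          exact hB2)
  refine ⟨ρ, ?_⟩
  obtain ⟨w, hw⟩ : ∃ w, w = Fintype.card (W ρ) := ⟨_, rfl⟩
  rw [← hw] at hρ hw1 ⊢
  obtain ⟨X, hX⟩ : ∃ X, X = 2 ^ μ * w := ⟨_, rfl⟩
  have hX1 : 1 ≤ X := by
    rw [hX]
    exact Nat.mul_pos (Nat.pow_pos (by norm_num)) hw1
  rw [← hX]
  have e1 : 2 ^ (μ + 1 + 1) * (t * w ^ 3) ≤ 2 ^ (6 * L) * X ^ 3 := by
    have e2 : 4 * t ≤ 2 ^ (6 * L) := by
      have e3 : g ≤ 2 ^ (L - 2) := by
        have : L - 2 = l := by omega
        rw [this]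
        exact hgl.le
      have e4 : L ≤ 2 ^ L := Nat.lt_two_pow_self.le
      have e5 : g ^ 2 * L ^ 2 ≤ 2 ^ (2 * (L - 2)) * 2 ^ (2 * L) := by
        refine Nat.mul_le_mul ?_ ?_
        · rw [mul_comm 2, pow_mul]
          exact Nat.pow_le_pow_left e3 2
        · rw [mul_comm 2, pow_mul]
          exact Nat.pow_le_pow_left e4 2
      have e6 : 4 * t ≤ 2 ^ 10 * (g ^ 2 * L ^ 2) := by
        have e7 : 1 ≤ g ^ 2 * L ^ 2 := Nat.mul_pos hg2 (Nat.pow_pos (by omega))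
        have e8 : 4 * t = 512 * (g ^ 2 * L ^ 2) + 4 := by rw [ht]; ring
        rw [e8]
        omega
      refine e6.trans ((Nat.mul_le_mul_left _ e5).trans ?_)
      rw [← pow_add, ← pow_add]
      exact Nat.pow_le_pow_right (by norm_num) (by omega)
    have e3 : 2 ^ μ ≤ (2 ^ μ) ^ 3 := by
      conv_lhs => rw [← pow_one (2 ^ μ)]
      exact Nat.pow_le_pow_right (Nat.pow_pos (by norm_num)) (by norm_num)
    calc 2 ^ (μ + 1 + 1) * (t * w ^ 3) = (4 * t) * (2 ^ μ * w ^ 3) := by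
          rw [pow_succ, pow_succ]; ring
      _ ≤ 2 ^ (6 * L) * ((2 ^ μ) ^ 3 * w ^ 3) :=
          Nat.mul_le_mul e2 (Nat.mul_le_mul_right _ e3)
      _ = _ := by rw [hX, mul_pow]
  have e4 : 2 ^ (m * L) ≤ 2 ^ (6 * L * (t + 1)) * X ^ (3 * (t + 1)) := by
    calc 2 ^ (m * L) ≤ (2 ^ (6 * L) * X ^ 3) ^ (t + 1) := hρ.trans (Nat.pow_le_pow_left e1 _)
      _ = _ := by rw [mul_pow, ← pow_mul, ← pow_mul]
  have ht1 : t + 1 ≤ 130 * (g ^ 2 * L ^ 2) := by
    have e7 : 1 ≤ g ^ 2 * L ^ 2 := Nat.mul_pos hg2 (Nat.pow_pos (by omega))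
    have e8 : t + 1 = 128 * (g ^ 2 * L ^ 2) + 2 := by rw [ht]; ring
    omega
  have ht2 : 12 * (t + 1) ≤ m := by omega
  have e5 : 2 ^ (m * L) ≤ X ^ (6 * (t + 1)) := by
    have e6 : 12 * L * (t + 1) ≤ m * L := by
      calc 12 * L * (t + 1) = 12 * (t + 1) * L := by ring
        _ ≤ _ := Nat.mul_le_mul_right _ ht2
    obtain ⟨D, hD⟩ := Nat.exists_eq_add_of_le e6
    have e7 : 2 ^ (6 * L * (t + 1) + D) ≤ X ^ (3 * (t + 1)) := by
      refine Nat.le_of_mul_le_mul_left (c := 2 ^ (6 * L * (t + 1))) ?_ (Nat.pow_pos (by norm_num))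
      rw [← pow_add]
      refine le_trans (le_of_eq ?_) e4
      rw [hD]
      congr 1
      ring
    calc 2 ^ (m * L) ≤ 2 ^ (2 * (6 * L * (t + 1) + D)) :=
          Nat.pow_le_pow_right (by norm_num) (by rw [hD]; ring_nf; omega)
      _ = (2 ^ (6 * L * (t + 1) + D)) ^ 2 := by rw [mul_comm 2, pow_mul]
      _ ≤ (X ^ (3 * (t + 1))) ^ 2 := Nat.pow_le_pow_left e7 2
      _ = _ := by rw [← pow_mul]; congr 1; ring
  have e6 : (2 ^ n) ^ L ≤ (X ^ (780 * g ^ 3 * L)) ^ L := by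
    calc (2 ^ n) ^ L ≤ (2 ^ (g * m)) ^ L :=
          Nat.pow_le_pow_left (Nat.pow_le_pow_right (by norm_num) hm1) _
      _ = (2 ^ (m * L)) ^ g := by rw [← pow_mul, ← pow_mul]; congr 1; ring
      _ ≤ (X ^ (6 * (t + 1))) ^ g := Nat.pow_le_pow_left e5 _
      _ = X ^ (6 * (t + 1) * g) := by rw [← pow_mul]
      _ ≤ X ^ (6 * (130 * (g ^ 2 * L ^ 2)) * g) :=
          Nat.pow_le_pow_right hX1 (Nat.mul_le_mul_right _ (Nat.mul_le_mul_left _ ht1))
      _ = _ := by rw [← pow_mul]; congr 1; ring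
  have e7 : 2 ^ n ≤ X ^ (780 * g ^ 3 * L) := (Nat.pow_le_pow_iff_left (by omega)).1 e6
  refine e7.trans (Nat.pow_le_pow_right hX1 ?_)
  calc 780 * g ^ 3 * L ≤ 780 * g ^ 3 * (3 * l) := Nat.mul_le_mul_left _ hL3
    _ = 2340 * g ^ 3 * l := by ring
    _ ≤ _ := Nat.mul_le_mul_right _ (Nat.mul_le_mul_right _ (by norm_num))

end Run7.h156.VC
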