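import Pool.Agent.Run7.h156.VC.Net
import Pool.Agent.TH700.PA.GameTight
import Mathlib.Combinatorics.SimpleGraph.VertexCover
import Mathlib.Data.Finset.Interval

/-!
# Mixtures of planted independent sets have no large independent sets
-/

set_option autoImplicit false

open Finset

namespace Run7.h156.VC

open Pool.Agent.TH700.PA (mixp choose_mul_pow_le)

variable {n t : ℕ}

open Classical in
/-- The adjacency bits of the graph of all pairs of different vertices which are not inside `A`. -/
noncomputable def pl (A : Finset (Fin n)) : Sym2 (Fin n) → Bool :=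
  fun e => decide (¬ e.IsDiag ∧ ¬ ∀ u ∈ e, u ∈ A)

/-- The graph with the given adjacency bits. -/
def toG (x : Sym2 (Fin n) → Bool) : SimpleGraph (Fin n) where
  Adj u v := u ≠ v ∧ x s(u, v) = true
  symm := ⟨fun u v h => ⟨h.1.symm, by rw [Sym2.eq_swap]; exact h.2⟩⟩
  loopless := ⟨fun _ h => h.1 rfl⟩

theorem bits_toG {x : Sym2 (Fin n) → Bool} (hx : ∀ e : Sym2 (Fin n), e.IsDiag → x e = false) :
    bits (toG x) = x := by
  classical
  funext e
  induction e using Sym2.ind with
  | _ u v =>
    unfold bits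
    have h1 : s(u, v) ∈ (toG x).edgeSet ↔ u ≠ v ∧ x s(u, v) = true := by
      rw [SimpleGraph.mem_edgeSet]
      rfl
    by_cases huv : u = v
    · have h2 := hx s(u, v) (by rw [Sym2.mk_isDiag_iff]; exact huv)
      rw [h2, decide_eq_false_iff_not, h1]
      exact fun h => h.1 huv
    · by_cases h3 : x s(u, v) = true
      · rw [h3, decide_eq_true_iff, h1]
        exact ⟨huv, h3⟩
      · rw [Bool.not_eq_true] at h3
        rw [h3, decide_eq_false_iff_not, h1, h3]
        simp

theorem pl_diag (A : Finset (Fin n)) (e : Sym2 (Fin n)) (he : e.IsDiag) : pl A e = false := by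
  unfold pl
  simp [he]

theorem pl_false {A : Finset (Fin n)} {u v : Fin n} (huv : u ≠ v) (h : pl A s(u, v) = false) :
    u ∈ A := by
  unfold pl at h
  rw [decide_eq_false_iff_not, not_and, not_not] at h
  exact h (by rw [Sym2.mk_isDiag_iff]; exact huv) u (Sym2.mem_mk_left u v)

theorem pl_cover (A : Finset (Fin n)) : (toG (pl A)).IsVertexCover ((Aᶜ : Finset (Fin n)) : Set (Fin n)) := by
  intro u v h
  obtain ⟨h1, h2⟩ := h
  by_contra hcon
  rw [not_or] at hcon
  rw [coe_compl, Set.notMem_compl_iff, Set.notMem_compl_iff, mem_coe, mem_coe] at hcon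
  unfold pl at h2
  rw [decide_eq_true_iff] at h2
  refine h2.2 fun w hw => ?_
  rcases Sym2.mem_iff.1 hw with rfl | rfl
  · exact hcon.1
  · exact hcon.2

/-- The vertices of `J` in a pair of `J` of colour `j`. -/
def Sj (p : Sym2 (Fin n) → Fin t) (J : Finset (Fin n)) (j : Fin t) : Finset (Fin n) :=
  J.filter (fun u => ∃ v ∈ J, v ≠ u ∧ p s(u, v) = j)

theorem card_off (p : Sym2 (Fin n) → Fin t) {y : ℕ}
    (hp : ∀ j, (univ.filter (fun e => p e = j)).card ≤ 2 * y ^ 2) (J : Finset (Fin n)) :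
    J.card * (J.card - 1) ≤ 2 * y * ∑ j, (Sj p J j).card := by
  classical
  have h1 : J.card * (J.card - 1) = J.offDiag.card := by
    rw [offDiag_card, Nat.mul_sub_one]
  have h2 : J.offDiag.card = ∑ j, (J.offDiag.filter (fun q => p s(q.1, q.2) = j)).card :=
    card_eq_sum_card_fiberwise (f := fun q : Fin n × Fin n => p s(q.1, q.2)) (t := univ)
      (fun q _ => by simp)
  rw [h1, h2, mul_sum]
  refine sum_le_sum fun j _ => ?_
  obtain ⟨O, hO⟩ : ∃ O, O = J.offDiag.filter (fun q => p s(q.1, q.2) = j) := ⟨_, rfl⟩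
  rw [← hO]
  have h3 : O.card ≤ (Sj p J j).card * (Sj p J j).card := by
    rw [← card_product]
    refine card_le_card fun q hq => ?_
    rw [hO, mem_filter, mem_offDiag] at hq
    obtain ⟨⟨q1, q2, q3⟩, q4⟩ := hq
    rw [mem_product]
    refine ⟨mem_filter.2 ⟨q1, q.2, q2, q3.symm, q4⟩, mem_filter.2 ⟨q2, q.1, q1, q3, ?_⟩⟩
    rw [Sym2.eq_swap]
    exact q4
  have h4 : O.card ≤ 2 * (2 * y ^ 2) := by
    have h5 : O.card ≤ 2 * (O.image (fun q => s(q.1, q.2))).card := by
      refine card_le_mul_card_image _ 2 fun e _ => ?_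
      induction e using Sym2.ind with
      | _ u v =>
        have h6 : O.filter (fun q => s(q.1, q.2) = s(u, v)) ⊆ {(u, v), (v, u)} := by
          intro q hq
          have h7 := (mem_filter.1 hq).2
          rw [Sym2.eq_iff] at h7
          rw [mem_insert, mem_singleton]
          rcases h7 with ⟨h8, h9⟩ | ⟨h8, h9⟩
          · left; exact Prod.ext h8 h9
          · right; exact Prod.ext h8 h9
        exact (card_le_card h6).trans card_le_two
    refine h5.trans (Nat.mul_le_mul_left 2 ((card_le_card fun e he => ?_).trans (hp j)))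
    obtain ⟨q, hq, rfl⟩ := mem_image.1 he
    rw [hO, mem_filter] at hq
    exact mem_filter.2 ⟨mem_univ _, hq.2⟩
  obtain ⟨a, ha⟩ : ∃ a, a = (Sj p J j).card := ⟨_, rfl⟩
  rw [← ha] at h3 ⊢
  rcases Nat.le_total a (2 * y) with h | h
  · exact h3.trans (Nat.mul_le_mul_right _ h)
  · refine h4.trans ?_
    calc 2 * (2 * y ^ 2) = 2 * y * (2 * y) := by ring
      _ ≤ _ := Nat.mul_le_mul_left _ h

open Classical in
/-- The tuples of sets which contain the sets `Sj`. -/
noncomputable def BJ (p : Sym2 (Fin n) → Fin t) (J : Finset (Fin n)) :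
    Finset (Fin t → Finset (Fin n)) :=
  Fintype.piFinset (fun j => Finset.Icc (Sj p J j) univ)

theorem card_BJ (p : Sym2 (Fin n) → Fin t) (J : Finset (Fin n)) :
    (BJ p J).card * 2 ^ (∑ j, (Sj p J j).card) = (2 ^ n) ^ t := by
  classical
  unfold BJ
  rw [Fintype.card_piFinset, ← prod_pow_eq_pow_sum, ← prod_mul_distrib]
  have h1 : ∀ j ∈ (univ : Finset (Fin t)),
      (Finset.Icc (Sj p J j) univ).card * 2 ^ (Sj p J j).card = 2 ^ n := by
    intro j _
    rw [Finset.card_Icc_finset (subset_univ _), card_univ, Fintype.card_fin, ← pow_add,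
      Nat.sub_add_cancel]
    have := card_le_univ (Sj p J j)
    rwa [Fintype.card_fin] at this
  rw [prod_congr rfl h1, prod_const, card_univ, Fintype.card_fin]

/-- `G` is a NO instance for `g`: every vertex cover has weight larger than `1 - 1/g` times the
weight of all vertices. -/
def No (g : ℕ) (G : SimpleGraph (Fin n)) (w : Fin n → ℕ) : Prop :=
  ∀ C : Finset (Fin n), G.IsVertexCover (C : Set (Fin n)) →
    g * ∑ v, w v < g * ∑ v ∈ C, w v + ∑ v, w v

/-- `G` is a YES instance: some vertex cover has at most one half of the weight. -/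
def Yes (G : SimpleGraph (Fin n)) (w : Fin n → ℕ) : Prop :=
  ∃ C : Finset (Fin n), G.IsVertexCover (C : Set (Fin n)) ∧ 2 * ∑ v ∈ C, w v ≤ ∑ v, w v

theorem few_bad {g L y m : ℕ} (hL : 4 * g ≤ 2 ^ L) (hy : 1 ≤ y) (hm : 1 ≤ m) (hyL : 4 * y * L ≤ m - 1)
    (hm1 : n ≤ g * m) (hm2 : ∀ c, n ≤ g * c → m ≤ c)
    (p : Sym2 (Fin n) → Fin t) (hp : ∀ j, (univ.filter (fun e => p e = j)).card ≤ 2 * y ^ 2) :
    ∃ B : Finset (Fin t → Finset (Fin n)),
      (∀ b, ¬ No g (toG (mixp p pl b)) (fun _ => 1) → b ∈ B) ∧ B.card * 2 ^ (m * L) ≤ (2 ^ n) ^ t := by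
  classical
  refine ⟨(powersetCard m univ).biUnion (fun J => BJ p J), fun b hb => ?_, ?_⟩
  · unfold No at hb
    push Not at hb
    obtain ⟨C, hC, hlt⟩ := hb
    simp only [sum_const, smul_eq_mul, mul_one, card_univ, Fintype.card_fin] at hlt
    have h1 : n ≤ g * (Cᶜ).card := by
      rw [card_compl, Fintype.card_fin, Nat.mul_sub]
      omega
    obtain ⟨J, hJ1, hJ2⟩ := exists_subset_card_eq (hm2 _ h1)
    rw [mem_biUnion]
    refine ⟨J, mem_powersetCard.2 ⟨subset_univ _, hJ2⟩, ?_⟩
    unfold BJ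
    rw [Fintype.mem_piFinset]
    intro j
    rw [Finset.mem_Icc]
    refine ⟨fun u hu => ?_, subset_univ _⟩
    unfold Sj at hu
    rw [mem_filter] at hu
    obtain ⟨huJ, v, hvJ, hvu, hpj⟩ := hu
    have h2 : ¬ (toG (mixp p pl b)).Adj u v := by
      intro h
      rcases hC h with h3 | h3
      · exact (mem_compl.1 (hJ1 huJ)) (mem_coe.1 h3)
      · exact (mem_compl.1 (hJ1 hvJ)) (mem_coe.1 h3)
    have h3 : pl (b j) s(u, v) = false := by
      by_contra hcon
      rw [Bool.not_eq_false] at hcon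
      refine h2 ⟨hvu.symm, ?_⟩
      unfold mixp
      rw [hpj]
      exact hcon
    exact pl_false hvu.symm h3
  · have key : ∀ J ∈ powersetCard m (univ : Finset (Fin n)),
        (BJ p J).card * 2 ^ (2 * (m * L)) ≤ (2 ^ n) ^ t := by
      intro J hJ
      have hJc := (mem_powersetCard.1 hJ).2
      have h1 := card_off p hp J
      rw [hJc] at h1
      have h2 : 2 * (m * L) ≤ ∑ j, (Sj p J j).card := by
        have h3 : m * (4 * y * L) ≤ m * (m - 1) := Nat.mul_le_mul_left _ hyL
        have h4 : 2 * y * (2 * (m * L)) ≤ 2 * y * ∑ j, (Sj p J j).card := by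
          refine le_trans (le_of_eq ?_) (h3.trans h1)
          ring
        exact Nat.le_of_mul_le_mul_left h4 (by omega)
      rw [← card_BJ p J]
      exact Nat.mul_le_mul_left _ (Nat.pow_le_pow_right (by norm_num) h2)
    have h5 : n.choose m ≤ 2 ^ (m * L) := by
      have h6 := choose_mul_pow_le n m
      have h7 : (4 * n) ^ m ≤ 2 ^ (m * L) * m ^ m := by
        calc (4 * n) ^ m ≤ (4 * g * m) ^ m := Nat.pow_le_pow_left (by
              calc 4 * n ≤ 4 * (g * m) := Nat.mul_le_mul_left _ hm1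
                _ = 4 * g * m := by ring) _
          _ = (4 * g) ^ m * m ^ m := by rw [mul_pow]
          _ ≤ (2 ^ L) ^ m * m ^ m := Nat.mul_le_mul_right _ (Nat.pow_le_pow_left hL _)
          _ = _ := by rw [← pow_mul, mul_comm L m]
      exact Nat.le_of_mul_le_mul_right (h6.trans h7) (Nat.pow_pos hm)
    have h8 : ((powersetCard m (univ : Finset (Fin n))).biUnion (fun J => BJ p J)).card *
        2 ^ (2 * (m * L)) ≤ 2 ^ (m * L) * (2 ^ n) ^ t := by
      calc _ ≤ (∑ J ∈ powersetCard m (univ : Finset (Fin n)), (BJ p J).card) *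
            2 ^ (2 * (m * L)) := Nat.mul_le_mul_right _ card_biUnion_le
        _ = ∑ J ∈ powersetCard m (univ : Finset (Fin n)), (BJ p J).card * 2 ^ (2 * (m * L)) := by
            rw [sum_mul]
        _ ≤ ∑ _J ∈ powersetCard m (univ : Finset (Fin n)), (2 ^ n) ^ t := sum_le_sum key
        _ = n.choose m * (2 ^ n) ^ t := by
            rw [sum_const, smul_eq_mul, card_powersetCard, card_univ, Fintype.card_fin]
        _ ≤ _ := Nat.mul_le_mul_right _ h5
    refine Nat.le_of_mul_le_mul_left (c := 2 ^ (m * L)) ?_ (Nat.pow_pos (by norm_num))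
    refine le_trans (le_of_eq ?_) h8
    rw [two_mul, pow_add]
    ring

end Run7.h156.VC
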