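import Pool.Agent.TH700.PA.Density
import Pool.Agent.TH700.PA.Count
import Mathlib.Combinatorics.SimpleGraph.Basic
import Mathlib.Data.Sym.Sym2

/-!
# Read-once tensor networks whose inputs are weighted graphs
-/

set_option autoImplicit false

open Finset

namespace Run7.h156.VC

open Pool.Agent.TH700.PA (Net)

/-- A tree tensor network whose inputs are graphs on `{0, …, n - 1}` with weights of the vertices:
a leaf reads one pair of vertices (a vector for edge and one for no edge) or is an arbitrary
function of all the weights, every inner node combines the vectors of its two children bilinearly by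
a tensor `c`. -/
inductive WNet (K : Type) (n : ℕ) (W : Type) : Type
  | pair (e : Sym2 (Fin n)) (f : Bool → W → K)
  | weights (f : (Fin n → ℕ) → W → K)
  | node (l r : WNet K n W) (c : W → W → W → K)

namespace WNet

variable {K : Type} {n : ℕ} {W : Type}

open Classical in
/-- The number of leaves that read the pair `e`. -/
noncomputable def reads (e : Sym2 (Fin n)) : WNet K n W → ℕ
  | pair e' _ => if e' = e then 1 else 0
  | weights _ => 0
  | node l r _ => l.reads e + r.reads e

/-- The vector computed on the graph with the adjacency bits `x` and the weights `w`. -/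
def eval [Semiring K] [Fintype W] : WNet K n W → (Sym2 (Fin n) → Bool) → (Fin n → ℕ) → W → K
  | pair e f, x, _ => f (x e)
  | weights f, _, w => f w
  | node l r c, x, w => fun k => ∑ i, ∑ j, c i j k * (l.eval x w i * r.eval x w j)

/-- The output for the output vector `a`. -/
def value [Semiring K] [Fintype W] (T : WNet K n W) (a : W → K) (x : Sym2 (Fin n) → Bool)
    (w : Fin n → ℕ) : K :=
  ∑ k, a k * T.eval x w k

/-- The network is linear (a matrix product): every right child is a leaf. -/
def Linear : WNet K n W → Prop
  | pair _ _ => True
  | weights _ => True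
  | node l r _ => l.Linear ∧ ((∃ e f, r = pair e f) ∨ ∃ f, r = weights f)

end WNet

open Classical in
/-- The adjacency bits of the graph `G`. -/
noncomputable def bits {n : ℕ} (G : SimpleGraph (Fin n)) : Sym2 (Fin n) → Bool :=
  fun e => decide (e ∈ G.edgeSet)

section Push

variable {V K Al W : Type} [Semiring K] [Fintype W]

/-- The network followed by the matrix `M`. -/
def push (M : W → W → K) : Net K V Al W → Net K V Al W
  | .leaf v f => .leaf v (fun a k => ∑ j, M j k * f a j)
  | .node l r c => .node l r (fun i j k => ∑ k', M k' k * c i j k')

theorem push_eval (M : W → W → K) (T : Net K V Al W) (x : V → Al) (k : W) :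
    (push M T).eval x k = ∑ j, M j k * T.eval x j := by
  cases T with
  | leaf v f => rfl
  | node l r c =>
    show ∑ i, ∑ j, (∑ k', M k' k * c i j k') * (l.eval x i * r.eval x j) =
      ∑ k', M k' k * ∑ i, ∑ j, c i j k' * (l.eval x i * r.eval x j)
    simp only [Finset.sum_mul, Finset.mul_sum]
    rw [Finset.sum_congr rfl fun i _ => Finset.sum_comm, Finset.sum_comm]
    refine Finset.sum_congr rfl fun k' _ => Finset.sum_congr rfl fun i _ =>
      Finset.sum_congr rfl fun j _ => ?_
    rw [mul_assoc]

theorem push_reads (M : W → W → K) (T : Net K V Al W) (v : V) :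
    (push M T).reads v = T.reads v := by
  cases T with
  | leaf u f => rfl
  | node l r c => rfl

end Push

section Conv

variable {K : Type} {n : ℕ} {W : Type} [CommSemiring K] [Fintype W]

/-- For fixed weights a network is constant or a network which reads pairs only. -/
theorem conv (w : Fin n → ℕ) (T : WNet K n W) :
    ((∀ e, T.reads e = 0) ∧ ∃ v : W → K, ∀ x, T.eval x w = v) ∨
      ∃ T' : Net K (Sym2 (Fin n)) Bool W, (∀ e, T'.reads e = T.reads e) ∧
        ∀ x, T'.eval x = T.eval x w := by
  induction T with
  | pair e f =>
    right
    refine ⟨.leaf e f, fun e' => ?_, fun _ => rfl⟩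
    unfold Net.reads WNet.reads
    congr
  | weights f =>
    left
    refine ⟨fun e => ?_, f w, fun _ => rfl⟩
    unfold WNet.reads
    rfl
  | node l r c hl hr =>
    have hreads : ∀ e, (WNet.node l r c).reads e = l.reads e + r.reads e := fun e => by
      conv_lhs => unfold WNet.reads
    rcases hl with ⟨hl0, v, hv⟩ | ⟨l', hl1, hl2⟩
    · rcases hr with ⟨hr0, u, hu⟩ | ⟨r', hr1, hr2⟩
      · left
        refine ⟨fun e => by rw [hreads, hl0, hr0],
          fun k => ∑ i, ∑ j, c i j k * (v i * u j), fun x => ?_⟩
        show (fun k => ∑ i, ∑ j, c i j k * (l.eval x w i * r.eval x w j)) = _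
        rw [hv, hu]
      · right
        refine ⟨push (fun j k => ∑ i, c i j k * v i) r', fun e => ?_, fun x => ?_⟩
        · rw [push_reads, hr1, hreads, hl0, zero_add]
        · funext k
          rw [push_eval, hr2]
          show _ = ∑ i, ∑ j, c i j k * (l.eval x w i * r.eval x w j)
          rw [hv, Finset.sum_comm]
          refine Finset.sum_congr rfl fun j _ => ?_
          rw [Finset.sum_mul]
          exact Finset.sum_congr rfl fun i _ => by rw [mul_assoc]
    · rcases hr with ⟨hr0, u, hu⟩ | ⟨r', hr1, hr2⟩
      · right
        refine ⟨push (fun i k => ∑ j, c i j k * u j) l', fun e => ?_, fun x => ?_⟩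
        · rw [push_reads, hl1, hreads, hr0, add_zero]
        · funext k
          rw [push_eval, hl2]
          show _ = ∑ i, ∑ j, c i j k * (l.eval x w i * r.eval x w j)
          rw [hu]
          refine Finset.sum_congr rfl fun i _ => ?_
          rw [Finset.sum_mul]
          exact Finset.sum_congr rfl fun j _ => by ring
      · right
        refine ⟨.node l' r' c, fun e => ?_, fun x => ?_⟩
        · rw [hreads, ← hl1, ← hr1]
          conv_lhs => unfold Net.reads
        · show (fun k => ∑ i, ∑ j, c i j k * (l'.eval x i * r'.eval x j)) =
            (fun k => ∑ i, ∑ j, c i j k * (l.eval x w i * r.eval x w j))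
          rw [hl2, hr2]

end Conv

end Run7.h156.VC
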