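import Pool.Agent.Run7.h156.VC.Main

/-!
# Linear networks of bond dimension `k 2 ^ (n / k + 1)`
-/

set_option autoImplicit false

open Finset

namespace Run7.h156.VC

open Pool.Agent.TH700.PA (Net exists_product)

section

variable {K : Type} {n : ℕ} {W : Type}

/-- A network which reads pairs only. -/
def ofNet : Net K (Sym2 (Fin n)) Bool W → WNet K n W
  | .leaf e f => .pair e f
  | .node l r c => .node (ofNet l) (ofNet r) c

theorem ofNet_reads (T : Net K (Sym2 (Fin n)) Bool W) (e : Sym2 (Fin n)) :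
    (ofNet T).reads e = T.reads e := by
  induction T with
  | leaf e' f =>
    unfold ofNet WNet.reads Net.reads
    congr
  | node l r c hl hr =>
    unfold ofNet WNet.reads Net.reads
    rw [hl, hr]

theorem ofNet_linear (T : Net K (Sym2 (Fin n)) Bool W) (h : T.Linear) : (ofNet T).Linear := by
  induction T with
  | leaf e' f => trivial
  | node l r c hl hr =>
    obtain ⟨h1, e, f, rfl⟩ := h
    exact ⟨hl h1, Or.inl ⟨e, f, rfl⟩⟩

theorem ofNet_eval [Semiring K] [Fintype W] (T : Net K (Sym2 (Fin n)) Bool W)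
    (x : Sym2 (Fin n) → Bool) (w : Fin n → ℕ) : (ofNet T).eval x w = T.eval x := by
  induction T with
  | leaf e' f => rfl
  | node l r c hl hr =>
    show (fun k => ∑ i, ∑ j, c i j k * ((ofNet l).eval x w i * (ofNet r).eval x w j)) = _
    rw [hl, hr]
    rfl

end

/-- A block of vertices (a residue class modulo `k`) and a set of vertices in it. -/
def Blk (n k : ℕ) : Type := {q : Fin k × Finset (Fin n) // ∀ v ∈ q.2, v.1 % k = q.1.1}

noncomputable instance (n k : ℕ) : Fintype (Blk n k) := by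
  classical
  unfold Blk
  infer_instance

theorem card_blk (n : ℕ) {k : ℕ} (hk : 1 ≤ k) : Fintype.card (Blk n k) ≤ k * 2 ^ (n / k + 1) := by
  classical
  have hlt : ∀ v : Fin n, v.1 / k < n / k + 1 := fun v =>
    Nat.lt_succ_of_le (Nat.div_le_div_right v.2.le)
  have h1 : Function.Injective (fun q : Blk n k =>
      ((q.1.1, q.1.2.image (fun v => (⟨v.1 / k, hlt v⟩ : Fin (n / k + 1)))) :
        Fin k × Finset (Fin (n / k + 1)))) := by
    intro q r h
    have h2 := congrArg Prod.fst h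
    have h3 := congrArg Prod.snd h
    simp only at h2 h3
    have hsub : ∀ q r : Blk n k, q.1.1 = r.1.1 →
        q.1.2.image (fun v => (⟨v.1 / k, hlt v⟩ : Fin (n / k + 1))) =
          r.1.2.image (fun v => (⟨v.1 / k, hlt v⟩ : Fin (n / k + 1))) → q.1.2 ⊆ r.1.2 := by
      intro q r h2 h3 v hv
      have h4 : (⟨v.1 / k, hlt v⟩ : Fin (n / k + 1)) ∈
          r.1.2.image (fun v => (⟨v.1 / k, hlt v⟩ : Fin (n / k + 1))) := by
        rw [← h3]
        exact mem_image_of_mem _ hv
      obtain ⟨u, hu, huv⟩ := mem_image.1 h4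
      have h5 : u.1 / k = v.1 / k := congrArg Fin.val huv
      have h6 : u.1 % k = v.1 % k := by rw [q.2 v hv, r.2 u hu, h2]
      have h7 : u.1 = v.1 := by
        rw [← Nat.div_add_mod u.1 k, ← Nat.div_add_mod v.1 k, h5, h6]
      rwa [← Fin.ext h7]
    exact Subtype.ext (Prod.ext h2 (Subset.antisymm (hsub q r h2 h3) (hsub r q h2.symm h3.symm)))
  have h2 := Fintype.card_le_of_injective _ h1
  rwa [Fintype.card_prod, Fintype.card_fin, Fintype.card_finset, Fintype.card_fin] at h2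

theorem upper {k n : ℕ} (hk : 1 ≤ k) (hn : 1 ≤ n) :
    ∃ (W : Type) (_ : Fintype W) (T : WNet ℚ n W) (a : W → ℚ),
      Fintype.card W ≤ k * 2 ^ (n / k + 1) ∧ T.Linear ∧ (∀ e, T.reads e = 1) ∧
      ∀ (G : SimpleGraph (Fin n)) (w : Fin n → ℕ),
        (Yes G w → 0 < T.value a (bits G) w) ∧
        (No (2 * k) G w → T.value a (bits G) w = 0) := by
  classical
  have hne : Nonempty (Sym2 (Fin n)) := ⟨s(⟨0, hn⟩, ⟨0, hn⟩)⟩
  obtain ⟨P, p1, p2, -, p4⟩ := exists_product (K := ℚ) (W := Blk n k)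
    (fun (e : Sym2 (Fin n)) (b : Bool) (q : Blk n k) =>
      if b = true ∧ ∀ v ∈ e, v ∈ q.1.2 then (0 : ℚ) else 1)
  obtain ⟨f, hf⟩ : ∃ f : (Fin n → ℕ) → Blk n k → ℚ, f = fun w q =>
      if ∑ v, w v ≤ 2 * k * ∑ v ∈ q.1.2, w v then (1 : ℚ) else 0 := ⟨_, rfl⟩
  obtain ⟨T, hT⟩ : ∃ T : WNet ℚ n (Blk n k), T = .node (ofNet P) (.weights f)
      (fun i j k => if i = k then (if j = k then 1 else 0) else 0) := ⟨_, rfl⟩
  have hval : ∀ (x : Sym2 (Fin n) → Bool) (w : Fin n → ℕ),
      T.value (fun _ => 1) x w = ∑ q : Blk n k,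
        (∏ e, if x e = true ∧ ∀ v ∈ e, v ∈ q.1.2 then (0 : ℚ) else 1) * f w q := by
    intro x w
    unfold WNet.value
    refine sum_congr rfl fun q _ => ?_
    rw [one_mul, hT]
    show ∑ i, ∑ j, (if i = q then (if j = q then (1 : ℚ) else 0) else 0) *
      ((ofNet P).eval x w i * f w j) = _
    have h4 : ∀ i j : Blk n k, (if i = q then (if j = q then (1 : ℚ) else 0) else 0) *
        ((ofNet P).eval x w i * f w j) =
          if i = q then (if j = q then (ofNet P).eval x w i * f w j else 0) else 0 := by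
      intro i j
      split_ifs <;> simp
    simp only [h4]
    rw [sum_eq_single q (fun i _ hi => by simp [hi]) (fun h => absurd (mem_univ q) h),
      sum_eq_single q (fun j _ hj => by simp [hj]) (fun h => absurd (mem_univ q) h), if_pos rfl,
      if_pos rfl, ofNet_eval, p4]
  have hprod : ∀ (G : SimpleGraph (Fin n)) (q : Blk n k),
      (∏ e, if bits G e = true ∧ ∀ v ∈ e, v ∈ q.1.2 then (0 : ℚ) else 1) =
        if ∀ u ∈ q.1.2, ∀ v ∈ q.1.2, ¬ G.Adj u v then 1 else 0 := by
    intro G q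
    by_cases h : ∀ u ∈ q.1.2, ∀ v ∈ q.1.2, ¬ G.Adj u v
    · rw [if_pos h]
      refine prod_eq_one fun e _ => ?_
      rw [if_neg]
      rintro ⟨h1, h2⟩
      induction e using Sym2.ind with
      | _ u v =>
        unfold bits at h1
        rw [decide_eq_true_iff, SimpleGraph.mem_edgeSet] at h1
        exact h u (h2 u (Sym2.mem_mk_left u v)) v (h2 v (Sym2.mem_mk_right u v)) h1
    · rw [if_neg h]
      push Not at h
      obtain ⟨u, hu, v, hv, huv⟩ := h
      refine prod_eq_zero (mem_univ s(u, v)) (if_pos ⟨?_, fun z hz => ?_⟩)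
      · unfold bits
        rw [decide_eq_true_iff, SimpleGraph.mem_edgeSet]
        exact huv
      · rcases Sym2.mem_iff.1 hz with rfl | rfl
        · exact hu
        · exact hv
  refine ⟨Blk n k, inferInstance, T, fun _ => 1, card_blk n hk, ?_, fun e => ?_, fun G w => ?_⟩
  · rw [hT]
    exact ⟨ofNet_linear P p1, Or.inr ⟨f, rfl⟩⟩
  · rw [hT]
    unfold WNet.reads
    rw [ofNet_reads, p2]
    unfold WNet.reads
    rfl
  · have hnn : ∀ q : Blk n k, 0 ≤ (if ∀ u ∈ q.1.2, ∀ v ∈ q.1.2, ¬ G.Adj u v then (1 : ℚ) else 0) *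
        f w q := by
      intro q
      rw [hf]
      simp only
      split_ifs <;> norm_num
    rw [hval]
    simp only [hprod]
    constructor
    · rintro ⟨C, hC, hle⟩
      -- the weight of the complement of the cover
      have h1 : ∑ v, w v = ∑ v ∈ C, w v + ∑ v ∈ Cᶜ, w v := (sum_add_sum_compl C w).symm
      have h2 : ∑ v, w v ≤ 2 * ∑ v ∈ Cᶜ, w v := by omega
      have h3 : ∑ v ∈ Cᶜ, w v = ∑ i : Fin k, ∑ v ∈ (Cᶜ).filter (fun v => v.1 % k = i.1), w v := by
        rw [← sum_fiberwise_of_maps_to (s := Cᶜ) (t := (univ : Finset (Fin k)))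
          (g := fun v => (⟨v.1 % k, Nat.mod_lt _ hk⟩ : Fin k)) (fun v _ => mem_univ _)]
        refine sum_congr rfl fun i _ => sum_congr ?_ fun _ _ => rfl
        ext v
        simp only [mem_filter, Fin.ext_iff]
      obtain ⟨i, hi⟩ : ∃ i : Fin k,
          ∑ v ∈ Cᶜ, w v ≤ k * ∑ v ∈ (Cᶜ).filter (fun v => v.1 % k = i.1), w v := by
        by_contra hcon
        push Not at hcon
        have : Nonempty (Fin k) := ⟨⟨0, hk⟩⟩
        have h4 : ∑ i : Fin k, k * ∑ v ∈ (Cᶜ).filter (fun v => v.1 % k = i.1), w v <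
            ∑ _i : Fin k, ∑ v ∈ Cᶜ, w v :=
          sum_lt_sum_of_nonempty univ_nonempty fun i _ => hcon i
        rw [← mul_sum, ← h3, sum_const, card_univ, Fintype.card_fin, smul_eq_mul] at h4
        exact lt_irrefl _ h4
      obtain ⟨q, hq⟩ : ∃ q : Blk n k, q = ⟨(i, (Cᶜ).filter (fun v => v.1 % k = i.1)),
        fun v hv => (mem_filter.1 hv).2⟩ := ⟨_, rfl⟩
      refine lt_of_lt_of_le ?_ (single_le_sum (fun q _ => hnn q) (mem_univ q))
      have h5 : ∀ u ∈ q.1.2, ∀ v ∈ q.1.2, ¬ G.Adj u v := by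
        intro u hu v hv huv
        rw [hq] at hu hv
        have hu' := mem_compl.1 (mem_filter.1 hu).1
        have hv' := mem_compl.1 (mem_filter.1 hv).1
        rcases hC huv with h | h
        · exact hu' (mem_coe.1 h)
        · exact hv' (mem_coe.1 h)
      have h6 : ∑ v, w v ≤ 2 * k * ∑ v ∈ q.1.2, w v := by
        rw [hq]
        simp only
        calc ∑ v, w v ≤ 2 * ∑ v ∈ Cᶜ, w v := h2
          _ ≤ 2 * (k * ∑ v ∈ (Cᶜ).filter (fun v => v.1 % k = i.1), w v) :=
              Nat.mul_le_mul_left _ hi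
          _ = _ := by ring
      rw [if_pos h5, hf]
      simp only
      rw [if_pos h6]
      norm_num
    · intro hN
      refine sum_eq_zero fun q _ => ?_
      by_cases h5 : ∀ u ∈ q.1.2, ∀ v ∈ q.1.2, ¬ G.Adj u v
      · have h6 := hN (q.1.2)ᶜ (by
          intro u v huv
          by_contra hcon
          rw [not_or, mem_coe, mem_coe, mem_compl, mem_compl, not_not, not_not] at hcon
          exact h5 u hcon.1 v hcon.2 huv)
        have h7 : ∑ v, w v = ∑ v ∈ q.1.2, w v + ∑ v ∈ (q.1.2)ᶜ, w v :=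
          (sum_add_sum_compl _ w).symm
        rw [hf]
        simp only
        rw [if_neg (show ¬ ∑ v, w v ≤ 2 * k * ∑ v ∈ q.1.2, w v from ?_), mul_zero]
        rw [not_le]
        have h8 : 2 * k * ∑ v, w v = 2 * k * ∑ v ∈ q.1.2, w v + 2 * k * ∑ v ∈ (q.1.2)ᶜ, w v := by
          rw [h7, mul_add]
        omega
      · rw [if_neg h5, zero_mul]

end Run7.h156.VC
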